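import Mathlib

/-!
# Copies of a finite-dimensional space in the common kernel of finitely many functionals
-/

set_option autoImplicit false
set_option linter.unusedSectionVars false

namespace Pool.Agent.CPavR

/-- `V` embeds with constant `lam` into the common kernel of any finitely many continuous functionals on `X`. -/
def AsEmb (V X : Type*) [NormedAddCommGroup V] [NormedSpace ℝ V] [NormedAddCommGroup X] [NormedSpace ℝ X]
    (lam : ℝ) : Prop :=
  ∀ Φ : Finset (X →L[ℝ] ℝ), ∃ T : V →ₗ[ℝ] X, ∀ v, (∀ φ ∈ Φ, φ (T v) = 0) ∧ ‖v‖ ≤ ‖T v‖ ∧ ‖T v‖ ≤ lam * ‖v‖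

section
variable {X : Type*} [NormedAddCommGroup X] [NormedSpace ℝ X]

/-- **Mazur's lemma.** Take a `1/8`-net of the unit sphere of `E` and functionals norming the net. -/
theorem mazur (E : Submodule ℝ X) [FiniteDimensional ℝ E] :
    ∃ Φ : Finset (X →L[ℝ] ℝ), ∀ e ∈ E, ∀ x, (∀ φ ∈ Φ, φ x = 0) → ‖e‖ ≤ 2 * ‖e + x‖ := by
  classical
  have hK : IsCompact (Metric.sphere (0 : E) 1) := isCompact_sphere 0 1
  obtain ⟨t, -, htf, ht⟩ := hK.elim_finite_subcover_image (b := Set.univ)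
    (c := fun p : E => Metric.ball p (1 / 8)) (fun _ _ => Metric.isOpen_ball)
    (fun x _ => Set.mem_biUnion (Set.mem_univ x) (Metric.mem_ball_self (by norm_num)))
  choose g hg1 hg2 using fun x : X => exists_dual_vector'' ℝ x
  have hunit : ∀ e ∈ E, ‖e‖ = 1 → ∀ x, (∀ φ ∈ htf.toFinset.image (fun p : E => g (p : X)), φ x = 0) →
      1 ≤ 2 * ‖e + x‖ := by
    intro e he h1 x hx
    have hmem : (⟨e, he⟩ : E) ∈ Metric.sphere (0 : E) 1 := by
      rw [mem_sphere_zero_iff_norm]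
      exact h1
    obtain ⟨p, hp, hpe⟩ := Set.mem_iUnion₂.1 (ht hmem)
    rw [Metric.mem_ball, dist_eq_norm] at hpe
    have h2 : ‖e - (p : X)‖ < 1 / 8 := hpe
    have h3 : g (p : X) x = 0 := hx _ (Finset.mem_image.2 ⟨p, htf.mem_toFinset.2 hp, rfl⟩)
    have h4 : g (p : X) (e + x) = g (p : X) (p : X) + g (p : X) (e - (p : X)) := by
      rw [map_add, h3, add_zero, ← map_add]
      congr 1
      abel
    have h5 : g (p : X) (p : X) = ‖(p : X)‖ := hg2 p
    have h6 : |g (p : X) (e - (p : X))| ≤ 1 / 8 := by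
      have := (g (p : X)).le_opNorm (e - (p : X))
      rw [Real.norm_eq_abs] at this
      refine this.trans ?_
      have h7 := hg1 (p : X)
      nlinarith [norm_nonneg (e - (p : X))]
    have h7 : |g (p : X) (e + x)| ≤ ‖e + x‖ := by
      have := (g (p : X)).le_opNorm (e + x)
      rw [Real.norm_eq_abs] at this
      refine this.trans ?_
      have h7 := hg1 (p : X)
      nlinarith [norm_nonneg (e + x)]
    have h8 : 1 - 1 / 8 ≤ ‖(p : X)‖ := by
      have := norm_sub_norm_le e (p : X)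
      rw [h1] at this
      linarith
    have h9 := (abs_le.1 h6).1
    have h10 := le_abs_self (g (p : X) (e + x))
    rw [h4, h5] at h10
    rw [h4, h5] at h7
    linarith
  refine ⟨htf.toFinset.image (fun p : E => g (p : X)), fun e he x hx => ?_⟩
  by_cases h0 : e = 0
  · subst h0
    rw [norm_zero]
    positivity
  · have hn : ‖e‖ ≠ 0 := norm_ne_zero_iff.2 h0
    have h1 := hunit (‖e‖⁻¹ • e) (E.smul_mem _ he) (by rw [norm_smul, norm_inv, norm_norm, inv_mul_cancel₀ hn])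
      (‖e‖⁻¹ • x) (fun φ hφ => by rw [map_smul, hx φ hφ, smul_zero])
    rw [← smul_add, norm_smul, norm_inv, norm_norm] at h1
    have h2 := mul_le_mul_of_nonneg_left h1 (norm_nonneg e)
    rw [mul_one, show ‖e‖ * (2 * (‖e‖⁻¹ * ‖e + x‖)) = (‖e‖ * ‖e‖⁻¹) * (2 * ‖e + x‖) by ring, mul_inv_cancel₀ hn,
      one_mul] at h2
    exact h2

/-- Any number of copies of `V` in `X` such that the difference of two copies is again an embedding. -/
theorem exists_copies {V : Type*} [NormedAddCommGroup V] [NormedSpace ℝ V] [FiniteDimensional ℝ V] {lam : ℝ}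
    (h : AsEmb V X lam) (N : ℕ) :
    ∃ T : ℕ → (V →ₗ[ℝ] X), (∀ j < N, ∀ v, ‖v‖ ≤ ‖T j v‖ ∧ ‖T j v‖ ≤ lam * ‖v‖) ∧
      ∀ j j', j < j' → j' < N → ∀ v, ‖v‖ ≤ 2 * ‖T j v - T j' v‖ := by
  classical
  induction N with
  | zero => exact ⟨fun _ => 0, fun j hj => absurd hj (Nat.not_lt_zero _), fun j j' _ hj' => absurd hj' (Nat.not_lt_zero _)⟩
  | succ N ih =>
    obtain ⟨T, hT1, hT2⟩ := ih
    let G : Submodule ℝ X := ⨆ j : Fin N, LinearMap.range (T j)
    obtain ⟨Φ, hΦ⟩ := mazur G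
    obtain ⟨S, hS⟩ := h Φ
    refine ⟨Function.update T N S, fun j hj v => ?_, fun j j' hjj' hj' v => ?_⟩
    · by_cases hjN : j = N
      · subst hjN
        rw [Function.update_self]
        exact (hS v).2
      · rw [Function.update_of_ne hjN]
        exact hT1 j (by omega) v
    · have hjN : j ≠ N := by omega
      rw [Function.update_of_ne hjN]
      by_cases hj'N : j' = N
      · subst hj'N
        rw [Function.update_self]
        have h1 : T j v ∈ G := Submodule.mem_iSup_of_mem (⟨j, hjj'⟩ : Fin j') ⟨v, rfl⟩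
        have h2 := hΦ (T j v) h1 (-(S v)) (fun φ hφ => by rw [map_neg, (hS v).1 φ hφ, neg_zero])
        rw [← sub_eq_add_neg] at h2
        exact ((hT1 j hjj' v).1).trans h2
      · rw [Function.update_of_ne hj'N]
        exact hT2 j j' hjj' (by omega) v

/-- Correction by a finite rank operator. -/
theorem exists_corr (Φ : Finset (X →L[ℝ] ℝ)) : ∃ (P : X →ₗ[ℝ] X) (C : ℝ), 0 ≤ C ∧ (∀ x, ∀ φ ∈ Φ, φ (P x) = φ x) ∧
    ∀ (x : X) (t : ℝ), (∀ φ ∈ Φ, |φ x| ≤ t) → 0 ≤ t → ‖P x‖ ≤ C * t := by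
  classical
  let ev : X →ₗ[ℝ] ({φ // φ ∈ Φ} → ℝ) := LinearMap.pi fun φ => (φ.1 : X →ₗ[ℝ] ℝ)
  obtain ⟨s, hs⟩ := ev.rangeRestrict.exists_rightInverse_of_surjective (LinearMap.range_rangeRestrict ev)
  let s' : LinearMap.range ev →L[ℝ] X := LinearMap.toContinuousLinearMap s
  refine ⟨s ∘ₗ ev.rangeRestrict, ‖s'‖, norm_nonneg s', fun x φ hφ => ?_, fun x t ht ht0 => ?_⟩
  · have h1 : ev.rangeRestrict (s (ev.rangeRestrict x)) = ev.rangeRestrict x :=
      LinearMap.congr_fun hs (ev.rangeRestrict x)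
    have h2 := congrFun (congrArg Subtype.val h1) ⟨φ, hφ⟩
    exact h2
  · have h1 : ‖s' (ev.rangeRestrict x)‖ ≤ ‖s'‖ * ‖ev.rangeRestrict x‖ := s'.le_opNorm _
    have h2 : ‖ev.rangeRestrict x‖ ≤ t := by
      show ‖ev x‖ ≤ t
      rw [pi_norm_le_iff_of_nonneg ht0]
      intro φ
      exact ht φ.1 φ.2
    exact h1.trans (mul_le_mul_of_nonneg_left h2 (norm_nonneg s'))

end

/-- Pigeonhole principle in a finite-dimensional normed space. -/
theorem exists_pigeon (W : Type*) [NormedAddCommGroup W] [NormedSpace ℝ W] [FiniteDimensional ℝ W] (C ε : ℝ)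
    (hε : 0 < ε) : ∃ N : ℕ, ∀ A : ℕ → W, (∀ j < N, ‖A j‖ ≤ C) → ∃ j j', j < j' ∧ j' < N ∧ ‖A j - A j'‖ ≤ ε := by
  classical
  have hK : IsCompact (Metric.closedBall (0 : W) C) := isCompact_closedBall 0 C
  obtain ⟨t, -, htf, ht⟩ := hK.elim_finite_subcover_image (b := Set.univ)
    (c := fun p : W => Metric.ball p (ε / 2)) (fun _ _ => Metric.isOpen_ball)
    (fun x _ => Set.mem_biUnion (Set.mem_univ x) (Metric.mem_ball_self (by positivity)))
  refine ⟨htf.toFinset.card + 1, fun A hA => ?_⟩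
  have hc : ∀ j : ℕ, j < htf.toFinset.card + 1 → ∃ p ∈ htf.toFinset, ‖A j - p‖ < ε / 2 := by
    intro j hj
    have h1 : A j ∈ Metric.closedBall (0 : W) C := mem_closedBall_zero_iff.2 (hA j hj)
    obtain ⟨p, hp, hpe⟩ := Set.mem_iUnion₂.1 (ht h1)
    rw [Metric.mem_ball, dist_eq_norm] at hpe
    exact ⟨p, htf.mem_toFinset.2 hp, hpe⟩
  choose! p hp1 hp2 using hc
  obtain ⟨j, hj, j', hj', hne, heq⟩ := Finset.exists_ne_map_eq_of_card_lt_of_maps_to
    (s := Finset.range (htf.toFinset.card + 1)) (t := htf.toFinset) (by rw [Finset.card_range]; omega)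
    (f := p) (fun j hj => hp1 j (Finset.mem_range.1 hj))
  rw [Finset.mem_range] at hj hj'
  have key : ∀ j j' : ℕ, j < htf.toFinset.card + 1 → j' < htf.toFinset.card + 1 → p j = p j' → ‖A j - A j'‖ ≤ ε := by
    intro j j' hj hj' heq
    have h1 := hp2 j hj
    have h2 := hp2 j' hj'
    rw [← heq] at h2
    have h3 : A j - A j' = (A j - p j) - (A j' - p j) := by abel
    rw [h3]
    refine (norm_sub_le _ _).trans ?_
    linarith
  rcases lt_or_gt_of_ne hne with h | h
  · exact ⟨j, j', h, hj', key j j' hj hj' heq⟩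
  · exact ⟨j', j, h, hj, key j' j hj' hj heq.symm⟩

end Pool.Agent.CPavR
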