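import Pool.Agent.Lib.MP_758516_anR.BA

/-!
# Copies pass from `X` to `Y` if `X` is crudely finitely representable in `Y`
-/

set_option autoImplicit false
set_option linter.unusedSectionVars false

namespace Pool.Agent.CPavR

section
variable {V X Y : Type*} [NormedAddCommGroup V] [NormedSpace ℝ V] [FiniteDimensional ℝ V]
  [NormedAddCommGroup X] [NormedSpace ℝ X] [NormedAddCommGroup Y] [NormedSpace ℝ Y]

/-- Crude finite representability: every finite-dimensional subspace of `X` embeds into `Y` with constant `K`. -/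
def CFR (X Y : Type*) [NormedAddCommGroup X] [NormedSpace ℝ X] [NormedAddCommGroup Y] [NormedSpace ℝ Y] (K : ℝ) :
    Prop :=
  ∀ G : Submodule ℝ X, FiniteDimensional ℝ G → ∃ R : G →ₗ[ℝ] Y, ∀ g, ‖R g‖ ≤ K * ‖g‖ ∧ ‖g‖ ≤ K * ‖R g‖

/-- Take many copies of `V` in `X` in general position, map their span into `Y`; two of the images have almost
the same values under the functionals of `Φ`; take the difference and correct it. -/
theorem AsEmb.transfer {lam K : ℝ} (hlam : 0 ≤ lam) (hK : 1 ≤ K) (h : AsEmb V X lam) (hXY : CFR X Y K) :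
    AsEmb V Y (8 * K ^ 2 * lam + 1) := by
  classical
  intro Φ
  have hK0 : 0 < K := lt_of_lt_of_le one_pos hK
  obtain ⟨P, C, hC, hP1, hP2⟩ := exists_corr Φ
  obtain ⟨M, hM0, hM⟩ : ∃ M : ℝ, 0 ≤ M ∧ ∀ φ ∈ Φ, ‖φ‖ ≤ M :=
    ⟨∑ φ ∈ Φ, ‖φ‖, Finset.sum_nonneg fun _ _ => norm_nonneg _, fun φ hφ =>
      Finset.single_le_sum (f := fun φ : Y →L[ℝ] ℝ => ‖φ‖) (fun _ _ => norm_nonneg _) hφ⟩
  set ε : ℝ := 1 / (4 * K * (C + 1)) with hε
  have hε0 : 0 < ε := by positivity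
  obtain ⟨N, hN⟩ := exists_pigeon ({φ // φ ∈ Φ} → (V →L[ℝ] ℝ)) (M * (K * lam)) ε hε0
  obtain ⟨T, hT1, hT2⟩ := exists_copies h N
  let G : Submodule ℝ X := ⨆ j : Fin N, LinearMap.range (T j)
  obtain ⟨R, hR⟩ := hXY G inferInstance
  have hmem : ∀ j < N, ∀ v, T j v ∈ G := fun j hj v =>
    Submodule.mem_iSup_of_mem (⟨j, hj⟩ : Fin N) ⟨v, rfl⟩
  let T' : ℕ → (V →ₗ[ℝ] G) := fun j => if hj : j < N then (T j).codRestrict G (hmem j hj) else 0
  have hT' : ∀ j < N, ∀ v, ((T' j v : G) : X) = T j v := by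
    intro j hj v
    simp only [T', dif_pos hj]
    rfl
  let A : ℕ → ({φ // φ ∈ Φ} → (V →L[ℝ] ℝ)) := fun j φ =>
    LinearMap.toContinuousLinearMap ((φ.1 : Y →ₗ[ℝ] ℝ) ∘ₗ R ∘ₗ T' j)
  have hA : ∀ j φ v, A j φ v = φ.1 (R (T' j v)) := fun j φ v => rfl
  obtain ⟨j, j', hjj', hj', hε1⟩ := hN A (fun j hj => by
    rw [pi_norm_le_iff_of_nonneg (by positivity)]
    intro φ
    refine ContinuousLinearMap.opNorm_le_bound _ (by positivity) fun v => ?_
    rw [hA]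
    have h1 := φ.1.le_opNorm (R (T' j v))
    have h2 := (hR (T' j v)).1
    have h3 : ‖T' j v‖ ≤ lam * ‖v‖ := by
      have := (hT1 j hj v).2
      rw [← hT' j hj v] at this
      exact this
    calc ‖φ.1 (R (T' j v))‖ ≤ ‖φ.1‖ * ‖R (T' j v)‖ := h1
      _ ≤ M * (K * (lam * ‖v‖)) := by
          apply mul_le_mul (hM φ.1 φ.2) (h2.trans _) (norm_nonneg _) hM0
          exact mul_le_mul_of_nonneg_left h3 hK0.le
      _ = M * (K * lam) * ‖v‖ := by ring)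
  have hj : j < N := hjj'.trans hj'
  obtain ⟨S₀, hS₀⟩ : ∃ S₀ : V →ₗ[ℝ] Y, ∀ v, S₀ v = R (T' j v - T' j' v) := ⟨R ∘ₗ (T' j - T' j'), fun v => rfl⟩
  have hd : ∀ v, ‖v‖ ≤ 2 * ‖T' j v - T' j' v‖ := by
    intro v
    have := hT2 j j' hjj' hj' v
    rw [← hT' j hj v, ← hT' j' hj' v] at this
    exact this
  have hu : ∀ v, ‖T' j v - T' j' v‖ ≤ 2 * lam * ‖v‖ := by
    intro v
    refine (norm_sub_le _ _).trans ?_
    have e1 := (hT1 j hj v).2
    have e2 := (hT1 j' hj' v).2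
    rw [← hT' j hj v] at e1
    rw [← hT' j' hj' v] at e2
    have e1' : ‖T' j v‖ ≤ lam * ‖v‖ := e1
    have e2' : ‖T' j' v‖ ≤ lam * ‖v‖ := e2
    linarith
  have hsmall : ∀ v, ∀ φ ∈ Φ, |φ (S₀ v)| ≤ ε * ‖v‖ := by
    intro v φ hφ
    have h1 : φ (S₀ v) = (A j ⟨φ, hφ⟩ - A j' ⟨φ, hφ⟩) v := by
      rw [sub_apply, hA, hA, hS₀, map_sub, map_sub]
    rw [h1, ← Real.norm_eq_abs]
    refine (ContinuousLinearMap.le_opNorm _ _).trans ?_
    refine mul_le_mul_of_nonneg_right ?_ (norm_nonneg _)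
    have h2 := norm_le_pi_norm (A j - A j') ⟨φ, hφ⟩
    exact h2.trans hε1
  have hcorr : ∀ v, ‖P (S₀ v)‖ ≤ 1 / (4 * K) * ‖v‖ := by
    intro v
    have h1 := hP2 (S₀ v) (ε * ‖v‖) (hsmall v) (by positivity)
    refine h1.trans ?_
    rw [← mul_assoc]
    refine mul_le_mul_of_nonneg_right ?_ (norm_nonneg _)
    rw [hε, mul_one_div, div_le_div_iff₀ (by positivity) (by positivity)]
    nlinarith
  have hfin : ∀ v, ((4 * K) • (S₀ - P ∘ₗ S₀)) v = (4 * K) • (S₀ v - P (S₀ v)) := fun v => rfl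
  refine ⟨(4 * K) • (S₀ - P ∘ₗ S₀), fun v => ⟨fun φ hφ => ?_, ?_, ?_⟩⟩
  · rw [hfin, map_smul, map_sub, hP1 _ φ hφ, sub_self, smul_zero]
  · rw [hfin, norm_smul, Real.norm_of_nonneg (by positivity)]
    have h1 := norm_sub_norm_le (S₀ v) (P (S₀ v))
    have h2 := (hR (T' j v - T' j' v)).2
    rw [← hS₀] at h2
    have h3 := hd v
    have h4 := hcorr v
    have h5 : ‖v‖ ≤ 2 * K * ‖S₀ v‖ := by linarith
    have h6 : 4 * K * (1 / (4 * K) * ‖v‖) = ‖v‖ := by field_simp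
    have h7 := mul_le_mul_of_nonneg_left h4 (show (0 : ℝ) ≤ 4 * K by positivity)
    rw [h6] at h7
    have h8 := mul_le_mul_of_nonneg_left h1 (show (0 : ℝ) ≤ 4 * K by positivity)
    linarith
  · rw [hfin, norm_smul, Real.norm_of_nonneg (by positivity)]
    have h1 := norm_sub_le (S₀ v) (P (S₀ v))
    have h2 := (hR (T' j v - T' j' v)).1
    rw [← hS₀] at h2
    have h3 := hu v
    have h4 := hcorr v
    have h6 : 4 * K * (1 / (4 * K) * ‖v‖) = ‖v‖ := by field_simp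
    have h7 := mul_le_mul_of_nonneg_left h4 (show (0 : ℝ) ≤ 4 * K by positivity)
    rw [h6] at h7
    have h8 := mul_le_mul_of_nonneg_left h1 (show (0 : ℝ) ≤ 4 * K by positivity)
    have h9 : ‖S₀ v‖ ≤ K * (2 * lam * ‖v‖) := h2.trans (mul_le_mul_of_nonneg_left h3 hK0.le)
    have h10 := mul_le_mul_of_nonneg_left h9 (show (0 : ℝ) ≤ 4 * K by positivity)
    have h11 : 4 * K * (K * (2 * lam * ‖v‖)) = 8 * K ^ 2 * lam * ‖v‖ := by ring
    linarith

/-- If `V` embeds into `X` and all finite-dimensional subspaces of `X` have the property, so has `V`. -/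
theorem AsEmb.of_embed {lam K : ℝ} (hlam : 0 ≤ lam) (hK : 1 ≤ K)
    (hX : ∀ E : Submodule ℝ X, FiniteDimensional ℝ E → AsEmb E X lam) (R : V →ₗ[ℝ] X)
    (hR : ∀ v, ‖R v‖ ≤ K * ‖v‖ ∧ ‖v‖ ≤ K * ‖R v‖) : AsEmb V X (K ^ 2 * lam) := by
  intro Φ
  have hK0 : 0 < K := lt_of_lt_of_le one_pos hK
  obtain ⟨T, hT⟩ := hX (LinearMap.range R) inferInstance Φ
  refine ⟨K • (T ∘ₗ R.rangeRestrict), fun v => ?_⟩
  obtain ⟨h1, h2, h3⟩ := hT (R.rangeRestrict v)
  have h4 : ‖R.rangeRestrict v‖ = ‖R v‖ := rfl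
  rw [h4] at h2 h3
  refine ⟨fun φ hφ => ?_, ?_, ?_⟩
  · rw [LinearMap.smul_apply, LinearMap.comp_apply, map_smul, h1 φ hφ, smul_zero]
  · rw [LinearMap.smul_apply, LinearMap.comp_apply, norm_smul, Real.norm_of_nonneg hK0.le]
    exact (hR v).2.trans (mul_le_mul_of_nonneg_left h2 hK0.le)
  · rw [LinearMap.smul_apply, LinearMap.comp_apply, norm_smul, Real.norm_of_nonneg hK0.le]
    have h5 := mul_le_mul_of_nonneg_left h3 hK0.le
    have h6 : K * (lam * ‖R v‖) ≤ K * (lam * (K * ‖v‖)) := by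
      gcongr
      exact (hR v).1
    linarith [show K * (lam * (K * ‖v‖)) = K ^ 2 * lam * ‖v‖ by ring]

end

end Pool.Agent.CPavR
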