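import Pool.Agent.Lib.MP_758516_anR.BB
import Pool.Agent.Lib.MP_758516_an.Defs

/-!
# The joint extension
-/

set_option autoImplicit false
set_option linter.unusedSectionVars false

namespace Pool.Agent.CPavR

open Pool.Agent.CPav

section
variable {X Y : Type*} [NormedAddCommGroup X] [NormedSpace ℝ X] [NormedAddCommGroup Y] [NormedSpace ℝ Y]

/-- the isomorphism of `V` with the range of an embedding -/
theorem exists_range_equiv {V : Type*} [NormedAddCommGroup V] [NormedSpace ℝ V] {c : ℝ} (A : V →ₗ[ℝ] X)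
    (hA : ∀ v, ‖v‖ ≤ c * ‖A v‖) : ∃ e : V ≃ₗ[ℝ] LinearMap.range A, ∀ v, ((e v : LinearMap.range A) : X) = A v := by
  have hinj : Function.Injective A := by
    rw [injective_iff_map_eq_zero]
    intro v hv
    have := hA v
    rw [hv, norm_zero, mul_zero] at this
    exact norm_le_zero_iff.1 this
  exact ⟨LinearEquiv.ofInjective A hinj, fun v => LinearEquiv.ofInjective_apply A v⟩

/-- If `F` has copies in general position to `E` in `X` and `E` has copies in general position to `F` in `Y` then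
`E` and `F` have isomorphic extensions `E + F~` and `F + E~`. -/
theorem joint (E : Submodule ℝ X) (F : Submodule ℝ Y) [FiniteDimensional ℝ E] [FiniteDimensional ℝ F] {a : ℝ}
    (ha : 0 ≤ a) (hF : AsEmb F X a) (hE : AsEmb E Y a) :
    ∃ (E' : Submodule ℝ X) (F' : Submodule ℝ Y), E ≤ E' ∧ F ≤ F' ∧ FiniteDimensional ℝ E' ∧
      FiniteDimensional ℝ F' ∧ ∃ T : E' ≃L[ℝ] F',
        ‖(T : E' →L[ℝ] F')‖ * ‖(T.symm : F' →L[ℝ] E')‖ ≤ (2 * a + 3) * (2 * a + 3) := by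
  obtain ⟨Φ, hΦ⟩ := mazur E
  obtain ⟨Ψ, hΨ⟩ := mazur F
  obtain ⟨S, hS⟩ := hF Φ
  obtain ⟨T, hT⟩ := hE Ψ
  let A : E × F →ₗ[ℝ] X := E.subtype.coprod S
  let B : E × F →ₗ[ℝ] Y := T.coprod F.subtype
  have hA : ∀ e f, A (e, f) = (e : X) + S f := fun e f => by
    show E.subtype.coprod S (e, f) = _
    rw [LinearMap.coprod_apply]
    rfl
  have hB : ∀ e f, B (e, f) = T e + (f : Y) := fun e f => by
    show T.coprod F.subtype (e, f) = _
    rw [LinearMap.coprod_apply]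
    rfl
  have a1 : ∀ e f, ‖e‖ ≤ 2 * ‖A (e, f)‖ := by
    intro e f
    rw [hA]
    exact hΦ e e.2 (S f) (hS f).1
  have a2 : ∀ e f, ‖f‖ ≤ 3 * ‖A (e, f)‖ := by
    intro e f
    have h1 := a1 e f
    have h2 := (hS f).2.1
    have h3 : ‖S f‖ ≤ ‖A (e, f)‖ + ‖(e : X)‖ := by
      have : S f = A (e, f) - (e : X) := by rw [hA]; abel
      rw [this]
      exact norm_sub_le _ _
    have h4 : ‖(e : X)‖ = ‖e‖ := rfl
    linarith
  have b1 : ∀ e f, ‖f‖ ≤ 2 * ‖B (e, f)‖ := by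
    intro e f
    rw [hB, add_comm]
    exact hΨ f f.2 (T e) (hT e).1
  have b2 : ∀ e f, ‖e‖ ≤ 3 * ‖B (e, f)‖ := by
    intro e f
    have h1 := b1 e f
    have h2 := (hT e).2.1
    have h3 : ‖T e‖ ≤ ‖B (e, f)‖ + ‖(f : Y)‖ := by
      have : T e = B (e, f) - (f : Y) := by rw [hB]; abel
      rw [this]
      exact norm_sub_le _ _
    have h4 : ‖(f : Y)‖ = ‖f‖ := rfl
    linarith
  have c1 : ∀ e f, ‖B (e, f)‖ ≤ (2 * a + 3) * ‖A (e, f)‖ := by
    intro e f
    have h1 : ‖B (e, f)‖ ≤ ‖T e‖ + ‖(f : Y)‖ := by rw [hB]; exact norm_add_le _ _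
    have h2 := (hT e).2.2
    have h3 := mul_le_mul_of_nonneg_left (a1 e f) ha
    have h4 := a2 e f
    have h5 : ‖(f : Y)‖ = ‖f‖ := rfl
    linarith
  have c2 : ∀ e f, ‖A (e, f)‖ ≤ (2 * a + 3) * ‖B (e, f)‖ := by
    intro e f
    have h1 : ‖A (e, f)‖ ≤ ‖(e : X)‖ + ‖S f‖ := by rw [hA]; exact norm_add_le _ _
    have h2 := (hS f).2.2
    have h3 := mul_le_mul_of_nonneg_left (b1 e f) ha
    have h4 := b2 e f
    have h5 : ‖(e : X)‖ = ‖e‖ := rfl
    linarith
  have hA' : ∀ v : E × F, ‖v‖ ≤ 3 * ‖A v‖ := by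
    rintro ⟨e, f⟩
    rw [Prod.norm_def]
    refine max_le ?_ (a2 e f)
    have := a1 e f
    have h0 := norm_nonneg (A (e, f))
    show ‖e‖ ≤ _
    linarith
  have hB' : ∀ v : E × F, ‖v‖ ≤ 3 * ‖B v‖ := by
    rintro ⟨e, f⟩
    rw [Prod.norm_def]
    refine max_le (b2 e f) ?_
    have := b1 e f
    have h0 := norm_nonneg (B (e, f))
    show ‖f‖ ≤ _
    linarith
  obtain ⟨u, hu⟩ := exists_range_equiv A hA'
  obtain ⟨w, hw⟩ := exists_range_equiv B hB'
  have hfA : FiniteDimensional ℝ (LinearMap.range A) := inferInstance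
  have hfB : FiniteDimensional ℝ (LinearMap.range B) := inferInstance
  let R : LinearMap.range A ≃L[ℝ] LinearMap.range B := (u.symm.trans w).toContinuousLinearEquiv
  have hR : ∀ x, ‖R x‖ ≤ (2 * a + 3) * ‖x‖ := by
    intro x
    have h1 := c1 (u.symm x).1 (u.symm x).2
    have h2 : (R x : Y) = B (u.symm x) := hw (u.symm x)
    have h3 : (x : X) = A (u.symm x) := by rw [← hu (u.symm x), LinearEquiv.apply_symm_apply]
    have h4 : ‖R x‖ = ‖(R x : Y)‖ := rfl
    have h5 : ‖x‖ = ‖(x : X)‖ := rfl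
    rw [h4, h5, h2, h3]
    exact h1
  have hR' : ∀ y, ‖R.symm y‖ ≤ (2 * a + 3) * ‖y‖ := by
    intro y
    have h1 := c2 (w.symm y).1 (w.symm y).2
    have h2 : (R.symm y : X) = A (w.symm y) := hu (w.symm y)
    have h3 : (y : Y) = B (w.symm y) := by rw [← hw (w.symm y), LinearEquiv.apply_symm_apply]
    have h4 : ‖R.symm y‖ = ‖(R.symm y : X)‖ := rfl
    have h5 : ‖y‖ = ‖(y : Y)‖ := rfl
    rw [h4, h5, h2, h3]
    exact h1
  refine ⟨LinearMap.range A, LinearMap.range B, fun e he => ⟨(⟨e, he⟩, 0), ?_⟩, fun f hf => ⟨(0, ⟨f, hf⟩), ?_⟩, hfA,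
    hfB, R, ?_⟩
  · rw [hA, map_zero, add_zero]
  · rw [hB, map_zero, zero_add]
  · exact mul_le_mul (ContinuousLinearMap.opNorm_le_bound _ (by positivity) hR)
      (ContinuousLinearMap.opNorm_le_bound _ (by positivity) hR') (norm_nonneg (R.symm : LinearMap.range B →L[ℝ] LinearMap.range A)) (by positivity)

end

end Pool.Agent.CPavR
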