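import Mathlib

/-!
# Almost invariant finite sets of `ℤ ^ d`
-/

set_option autoImplicit false

namespace Pool.Agent.CPavR

/-- `B` is a finite nonempty set which is invariant up to `η` under translation by the elements of `K`. -/
def Inv {G : Type*} [AddCommGroup G] [DecidableEq G] (K : Finset G) (η : ℝ) (B : Finset G) : Prop :=
  B.Nonempty ∧ ∀ c ∈ K, (((B.image fun a => a + c) \ B).card : ℝ) ≤ η * B.card

section
variable {G : Type*} [AddCommGroup G] [DecidableEq G]

theorem Inv.mono {K K' : Finset G} {η η' : ℝ} {B : Finset G} (h : Inv K η B) (hK : K' ⊆ K) (hη : η ≤ η') :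
    Inv K' η' B :=
  ⟨h.1, fun c hc => (h.2 c (hK hc)).trans (mul_le_mul_of_nonneg_right hη (Nat.cast_nonneg _))⟩

/-- The sum of a bounded function over an almost invariant set is almost invariant. The difference of the two
sums is the sum of `h` over `(B + c) \ B` minus the sum of `h` over `B \ (B + c)`, and both sets have the same
number of elements. -/
theorem sum_shift_le {V : Type*} [NormedAddCommGroup V] (B : Finset G) (c : G) (h : G → V) (H η : ℝ)
    (hH : ∀ a, ‖h a‖ ≤ H) (hc : (((B.image fun a => a + c) \ B).card : ℝ) ≤ η * B.card) :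
    ‖∑ a ∈ B, h (a + c) - ∑ a ∈ B, h a‖ ≤ 2 * η * H * B.card := by
  classical
  have hH0 : 0 ≤ H := (norm_nonneg (h 0)).trans (hH 0)
  set B' := B.image fun a => a + c with hB'
  have hcard : B'.card = B.card := Finset.card_image_of_injective _ (add_left_injective c)
  have h1 : ∑ a ∈ B, h (a + c) = ∑ a ∈ B', h a := by
    rw [hB', Finset.sum_image]
    intro a _ b _ hab
    exact add_left_injective c hab
  have h2 : ∑ a ∈ B', h a - ∑ a ∈ B, h a = ∑ a ∈ B' \ B, h a - ∑ a ∈ B \ B', h a := by
    rw [Finset.sum_sdiff_sub_sum_sdiff]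
  have h3 : (B \ B').card = (B' \ B).card := by
    have e1 := Finset.card_sdiff_add_card_inter B B'
    have e2 := Finset.card_sdiff_add_card_inter B' B
    rw [Finset.inter_comm] at e2
    omega
  have key : ∀ S : Finset G, ‖∑ a ∈ S, h a‖ ≤ H * S.card := by
    intro S
    refine (norm_sum_le _ _).trans ?_
    refine (Finset.sum_le_sum fun a _ => hH a).trans ?_
    rw [Finset.sum_const, nsmul_eq_mul, mul_comm]
  rw [h1, h2]
  calc ‖∑ a ∈ B' \ B, h a - ∑ a ∈ B \ B', h a‖ ≤ ‖∑ a ∈ B' \ B, h a‖ + ‖∑ a ∈ B \ B', h a‖ := norm_sub_le _ _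
    _ ≤ H * (B' \ B).card + H * (B \ B').card := add_le_add (key _) (key _)
    _ = 2 * H * (B' \ B).card := by rw [h3]; ring
    _ ≤ 2 * H * (η * B.card) := by
        apply mul_le_mul_of_nonneg_left hc
        positivity
    _ = 2 * η * H * B.card := by ring

end

/-- Almost invariant sets exist in `ℤ ^ d`: large boxes. -/
theorem exists_inv {d : ℕ} (K : Finset (Fin d → ℤ)) {η : ℝ} (hη : 0 < η) :
    ∃ B : Finset (Fin d → ℤ), Inv K η B := by
  classical
  obtain ⟨q, hq⟩ : ∃ q : ℕ, ∀ c ∈ K, ∀ i, |c i| ≤ q := by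
    refine ⟨∑ c ∈ K, ∑ i, (c i).natAbs, fun c hc i => ?_⟩
    have h1 : (c i).natAbs ≤ ∑ i, (c i).natAbs :=
      Finset.single_le_sum (f := fun i => (c i).natAbs) (fun _ _ => Nat.zero_le _) (Finset.mem_univ i)
    have h2 : ∑ i, (c i).natAbs ≤ ∑ c ∈ K, ∑ i, (c i).natAbs :=
      Finset.single_le_sum (f := fun c : Fin d → ℤ => ∑ i, (c i).natAbs) (fun _ _ => Nat.zero_le _) hc
    have h3 := h1.trans h2
    rw [Int.abs_eq_natAbs]
    exact_mod_cast h3
  let box : ℕ → Finset (Fin d → ℤ) := fun n => Fintype.piFinset fun _ => Finset.Ico (0 : ℤ) n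
  let big : ℕ → Finset (Fin d → ℤ) := fun n => Fintype.piFinset fun _ => Finset.Ico (-(q : ℤ)) (n + q)
  have cbox : ∀ n, (box n).card = n ^ d := by
    intro n
    simp [box, Fintype.card_piFinset]
  have cbig : ∀ n, (big n).card = (n + 2 * q) ^ d := by
    intro n
    have : ((n : ℤ) + q - (-(q : ℤ))).toNat = n + 2 * q := by omega
    simp only [big, Fintype.card_piFinset, Int.card_Ico, this, Finset.prod_const, Finset.card_univ, Fintype.card_fin]
  have hsub : ∀ n, box n ⊆ big n := by
    intro n a ha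
    rw [Fintype.mem_piFinset] at ha ⊢
    intro i
    have := Finset.mem_Ico.1 (ha i)
    rw [Finset.mem_Ico]
    constructor <;> omega
  have hsh : ∀ n, ∀ c ∈ K, (box n).image (fun a => a + c) ⊆ big n := by
    intro n c hc a ha
    obtain ⟨b, hb, rfl⟩ := Finset.mem_image.1 ha
    rw [Fintype.mem_piFinset] at hb ⊢
    intro i
    have h1 := Finset.mem_Ico.1 (hb i)
    have h2 := abs_le.1 (hq c hc i)
    rw [Finset.mem_Ico, Pi.add_apply]
    constructor <;> omega
  have hlim : Filter.Tendsto (fun n : ℕ => (1 + 2 * (q : ℝ) / n) ^ d - 1) Filter.atTop (nhds 0) := by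
    have h1 : Filter.Tendsto (fun n : ℕ => 2 * (q : ℝ) / n) Filter.atTop (nhds 0) :=
      tendsto_const_div_atTop_nhds_zero_nat _
    have h2 := ((h1.const_add 1).pow d).sub_const 1
    simpa using h2
  have hev := (hlim.eventually (gt_mem_nhds hη)).and (Filter.eventually_gt_atTop 0)
  obtain ⟨n, hn, hn0⟩ := hev.exists
  have hn0' : (0 : ℝ) < n := by exact_mod_cast hn0
  refine ⟨box n, ?_, fun c hc => ?_⟩
  · rw [← Finset.card_pos, cbox]
    positivity
  · have h1 : ((box n).image (fun a => a + c) \ box n).card ≤ (big n \ box n).card :=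
      Finset.card_le_card (Finset.sdiff_subset_sdiff (hsh n c hc) (Finset.Subset.refl _))
    have h2 : (big n \ box n).card + (box n).card = (big n).card := Finset.card_sdiff_add_card_eq_card (hsub n)
    have h3 : ((big n \ box n).card : ℝ) = ((n : ℝ) + 2 * q) ^ d - (n : ℝ) ^ d := by
      have : (((big n \ box n).card + (box n).card : ℕ) : ℝ) = ((big n).card : ℝ) := by rw [h2]
      rw [cbox, cbig] at this
      push_cast at this
      linarith
    have h4 : ((n : ℝ) + 2 * q) ^ d - (n : ℝ) ^ d = ((1 + 2 * (q : ℝ) / n) ^ d - 1) * (n : ℝ) ^ d := by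
      have : (n : ℝ) + 2 * q = (1 + 2 * (q : ℝ) / n) * n := by field_simp
      rw [this, mul_pow]
      ring
    have h5 : (((box n).image (fun a => a + c) \ box n).card : ℝ) ≤ ((big n \ box n).card : ℝ) := by exact_mod_cast h1
    rw [cbox]
    push_cast
    calc (((box n).image (fun a => a + c) \ box n).card : ℝ) ≤ ((big n \ box n).card : ℝ) := h5
      _ = ((1 + 2 * (q : ℝ) / n) ^ d - 1) * (n : ℝ) ^ d := by rw [h3, h4]
      _ ≤ η * (n : ℝ) ^ d := mul_le_mul_of_nonneg_right hn.le (by positivity)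

end Pool.Agent.CPavR
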