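import Pool.Agent.Lib.MP_758516_anR.FA

/-!
# Averages over finite sets
-/

set_option autoImplicit false

namespace Pool.Agent.CPavR

section
variable {G : Type*} {V : Type*} [NormedAddCommGroup V] [NormedSpace ℝ V]

/-- the average of `h` over `B` -/
noncomputable def avg (B : Finset G) (h : G → V) : V := (B.card : ℝ)⁻¹ • ∑ a ∈ B, h a

theorem avg_add (B : Finset G) (h k : G → V) : avg B (fun a => h a + k a) = avg B h + avg B k := by
  unfold avg
  rw [Finset.sum_add_distrib, smul_add]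

theorem avg_sub (B : Finset G) (h k : G → V) : avg B (fun a => h a - k a) = avg B h - avg B k := by
  unfold avg
  rw [Finset.sum_sub_distrib, smul_sub]

theorem avg_sum {ι : Type*} (S : Finset ι) (B : Finset G) (h : ι → G → V) :
    avg B (fun a => ∑ i ∈ S, h i a) = ∑ i ∈ S, avg B (h i) := by
  unfold avg
  rw [Finset.sum_comm, Finset.smul_sum]

theorem avg_const {B : Finset G} (hB : B.Nonempty) (v : V) : avg B (fun _ => v) = v := by
  have : (B.card : ℝ) ≠ 0 := by
    rw [Nat.cast_ne_zero]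
    exact (Finset.card_pos.2 hB).ne'
  unfold avg
  rw [Finset.sum_const, ← Nat.cast_smul_eq_nsmul ℝ, smul_smul, inv_mul_cancel₀ this, one_smul]

theorem avg_comm {G' : Type*} (B : Finset G) (B' : Finset G') (h : G → G' → V) :
    avg B (fun a => avg B' (h a)) = avg B' (fun b => avg B fun a => h a b) := by
  unfold avg
  rw [← Finset.smul_sum, ← Finset.smul_sum, Finset.sum_comm, smul_comm]

theorem norm_avg_le (B : Finset G) (h : G → V) : ‖avg B h‖ ≤ avg B fun a => ‖h a‖ := by
  unfold avg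
  rw [norm_smul, Real.norm_of_nonneg (by positivity), smul_eq_mul]
  exact mul_le_mul_of_nonneg_left (norm_sum_le _ _) (by positivity)

theorem avg_mono (B : Finset G) {h k : G → ℝ} (hk : ∀ a ∈ B, h a ≤ k a) : avg B h ≤ avg B k := by
  unfold avg
  rw [smul_eq_mul, smul_eq_mul]
  exact mul_le_mul_of_nonneg_left (Finset.sum_le_sum hk) (by positivity)

theorem avg_le {B : Finset G} (hB : B.Nonempty) {h : G → ℝ} {c : ℝ} (hk : ∀ a ∈ B, h a ≤ c) : avg B h ≤ c := by
  have := avg_mono B (k := fun _ => c) hk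
  rwa [avg_const hB] at this

theorem le_avg {B : Finset G} (hB : B.Nonempty) {h : G → ℝ} {c : ℝ} (hk : ∀ a ∈ B, c ≤ h a) : c ≤ avg B h := by
  have := avg_mono B (h := fun _ => c) hk
  rwa [avg_const hB] at this

theorem exists_le_avg {B : Finset G} (hB : B.Nonempty) (h : G → ℝ) : ∃ a ∈ B, h a ≤ avg B h := by
  by_contra hc
  push_neg at hc
  have h1 : ∑ a ∈ B, avg B h < ∑ a ∈ B, h a := Finset.sum_lt_sum_of_nonempty hB hc
  have hne : (B.card : ℝ) ≠ 0 := by
    rw [Nat.cast_ne_zero]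
    exact (Finset.card_pos.2 hB).ne'
  rw [Finset.sum_const, nsmul_eq_mul] at h1
  have h2 : (B.card : ℝ) * avg B h = ∑ a ∈ B, h a := by
    unfold avg
    rw [smul_eq_mul, ← mul_assoc, mul_inv_cancel₀ hne, one_mul]
  linarith

theorem norm_avg_le_of_le {B : Finset G} (hB : B.Nonempty) {h : G → V} {c : ℝ} (hk : ∀ a ∈ B, ‖h a‖ ≤ c) :
    ‖avg B h‖ ≤ c :=
  (norm_avg_le B h).trans (avg_le hB hk)

end

section
variable {G : Type*} [AddCommGroup G] [DecidableEq G] {V : Type*} [NormedAddCommGroup V] [NormedSpace ℝ V]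

theorem avg_shift {K : Finset G} {η : ℝ} {B : Finset G} (hB : Inv K η B) {c : G} (hc : c ∈ K) {h : G → V} {H : ℝ}
    (hH : ∀ a, ‖h a‖ ≤ H) : ‖avg B (fun a => h (a + c)) - avg B h‖ ≤ 2 * η * H := by
  have h0 : (0 : ℝ) < B.card := by exact_mod_cast Finset.card_pos.2 hB.1
  have h1 := sum_shift_le B c h H η hH (hB.2 c hc)
  unfold avg
  rw [← smul_sub, norm_smul, norm_inv, Real.norm_natCast, inv_mul_le_iff₀ h0]
  linarith

end

end Pool.Agent.CPavR
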