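import Pool.Agent.Lib.MP_758516_anR.FB

/-!
# The averaging argument

`F` is a map of an abelian group `G` with almost invariant finite sets into a normed space. If the increments
of `F` in the directions `v i` are bounded and grow linearly along the multiples of `v i`, some average of the
increments has a lower bound in all directions `v i` simultaneously. (The averages over larger and larger
almost invariant sets decrease, so there is a scale at which they are almost constant.)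
-/

set_option autoImplicit false
set_option linter.unusedSectionVars false

namespace Pool.Agent.CPavR

section
variable {G : Type*} [AddCommGroup G] [DecidableEq G] {Y : Type*} [NormedAddCommGroup Y] [NormedSpace ℝ Y]

/-- the averaged increment of `F` in direction `v` at `z` -/
noncomputable def inc (F : G → Y) (B : Finset G) (v z : G) : Y := avg B fun w => F (z + w + v) - F (z + w)

theorem norm_inc_le {F : G → Y} {B : Finset G} (hB : B.Nonempty) {v : G} {L : ℝ} (hL : ∀ a, ‖F (a + v) - F a‖ ≤ L)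
    (z : G) : ‖inc F B v z‖ ≤ L :=
  norm_avg_le_of_le hB fun w _ => hL (z + w)

theorem FC_tele {F : G → Y} {B : Finset G} (hB : B.Nonempty) {v : G} {c C₀ D₀ : ℝ}
    (hlow : ∀ (a : G) (s : ℕ), c * s - C₀ ≤ ‖F (a + s • v) - F a‖) (hD : ∀ w ∈ B, ∀ a, ‖F (a + w) - F a‖ ≤ D₀)
    (s : ℕ) (z : G) : c * s - C₀ - 2 * D₀ ≤ ∑ i ∈ Finset.range s, ‖inc F B v (z + i • v)‖ := by
  have h1 : ∑ i ∈ Finset.range s, inc F B v (z + i • v) = avg B fun w => F (z + w + s • v) - F (z + w) := by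
    unfold inc
    rw [← avg_sum]
    congr 1
    funext w
    have h2 : ∀ i : ℕ, F (z + i • v + w + v) - F (z + i • v + w) = F (z + w + (i + 1) • v) - F (z + w + i • v) := by
      intro i
      congr 2
      · rw [add_smul, one_smul]; abel
      · abel
    rw [Finset.sum_congr rfl fun i _ => h2 i, Finset.sum_range_sub (fun i : ℕ => F (z + w + i • v)), zero_smul,
      add_zero]
  have h2 : (avg B fun w => F (z + w + s • v) - F (z + w)) =
      (F (z + s • v) - F z) + avg B fun w => (F (z + s • v + w) - F (z + s • v)) - (F (z + w) - F z) := by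
    rw [← avg_const hB (F (z + s • v) - F z), ← avg_add]
    congr 1
    funext w
    rw [add_right_comm z w]
    abel
  have h3 : ‖avg B fun w => (F (z + s • v + w) - F (z + s • v)) - (F (z + w) - F z)‖ ≤ 2 * D₀ := by
    refine norm_avg_le_of_le hB fun w hw => ?_
    refine (norm_sub_le _ _).trans ?_
    have e1 := hD w hw (z + s • v)
    have e2 := hD w hw z
    linarith
  have h4 : ‖∑ i ∈ Finset.range s, inc F B v (z + i • v)‖ ≤ ∑ i ∈ Finset.range s, ‖inc F B v (z + i • v)‖ :=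
    norm_sum_le _ _
  rw [h1, h2] at h4
  have h5 := hlow z s
  have h6 : ‖F (z + s • v) - F z‖ - ‖avg B fun w => (F (z + s • v + w) - F (z + s • v)) - (F (z + w) - F z)‖ ≤
      ‖(F (z + s • v) - F z) + avg B fun w => (F (z + s • v + w) - F (z + s • v)) - (F (z + w) - F z)‖ := by
    have := norm_sub_le ((F (z + s • v) - F z) +
      avg B fun w => (F (z + s • v + w) - F (z + s • v)) - (F (z + w) - F z))
      (avg B fun w => (F (z + s • v + w) - F (z + s • v)) - (F (z + w) - F z))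
    rw [add_sub_cancel_right] at this
    linarith
  linarith

theorem FC_low {F : G → Y} {B : Finset G} (hB : B.Nonempty) {v : G} {c C₀ D₀ L : ℝ}
    (hlow : ∀ (a : G) (s : ℕ), c * s - C₀ ≤ ‖F (a + s • v) - F a‖) (hD : ∀ w ∈ B, ∀ a, ‖F (a + w) - F a‖ ≤ D₀)
    (hL : ∀ a, ‖F (a + v) - F a‖ ≤ L) {K' B' : Finset G} {η : ℝ} (hB' : Inv K' η B') {s : ℕ} (hs : 0 < s)
    (hK : ∀ i < s, i • v ∈ K') (z : G) :
    c - (C₀ + 2 * D₀) / s - 2 * η * L ≤ avg B' fun w => ‖inc F B v (z + w)‖ := by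
  have hs' : (0 : ℝ) < s := by exact_mod_cast hs
  have h1 : c * s - C₀ - 2 * D₀ ≤ avg B' fun w => ∑ i ∈ Finset.range s, ‖inc F B v (z + w + i • v)‖ :=
    le_avg hB'.1 fun w _ => FC_tele hB hlow hD s (z + w)
  rw [avg_sum] at h1
  have h2 : ∀ i ∈ Finset.range s, (avg B' fun w => ‖inc F B v (z + w + i • v)‖) ≤
      (avg B' fun w => ‖inc F B v (z + w)‖) + 2 * η * L := by
    intro i hi
    have h3 := avg_shift hB' (hK i (Finset.mem_range.1 hi)) (h := fun w => ‖inc F B v (z + w)‖) (H := L)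
      (fun a => by rw [norm_norm]; exact norm_inc_le hB hL _)
    rw [Real.norm_eq_abs] at h3
    have h4 := (abs_le.1 h3).2
    have h5 : (avg B' fun w => ‖inc F B v (z + w + i • v)‖) = avg B' fun a => ‖inc F B v (z + (a + i • v))‖ := by
      congr 1
      funext a
      rw [add_assoc]
    rw [h5]
    linarith
  have h3 := h1.trans (Finset.sum_le_sum h2)
  rw [Finset.sum_const, Finset.card_range, nsmul_eq_mul] at h3
  have h4 : c - (C₀ + 2 * D₀) / s - 2 * η * L = (c * s - C₀ - 2 * D₀) / s - 2 * η * L := by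
    field_simp
    ring
  rw [h4, sub_le_iff_le_add, div_le_iff₀ hs']
  linarith

theorem FC_dec {F : G → Y} {B : Finset G} (hB : B.Nonempty) {v : G} {L : ℝ} (hL : ∀ a, ‖F (a + v) - F a‖ ≤ L)
    {K' B' : Finset G} {η : ℝ} (hB' : Inv K' η B') (hK : B ⊆ K') (z : G) :
    ‖inc F B' v z‖ ≤ (avg B' fun w => ‖inc F B v (z + w)‖) + 2 * η * L := by
  have h1 : (avg B' fun w => inc F B v (z + w)) - inc F B' v z =
      avg B fun w' => (avg B' fun w => F (z + (w + w') + v) - F (z + (w + w'))) -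
        avg B' fun w => F (z + w + v) - F (z + w) := by
    rw [avg_sub, avg_const hB]
    unfold inc
    rw [avg_comm]
    congr 2
    funext w'
    congr 1
    funext w
    rw [add_assoc z w w']
  have h2 : ‖(avg B' fun w => inc F B v (z + w)) - inc F B' v z‖ ≤ 2 * η * L := by
    rw [h1]
    refine norm_avg_le_of_le hB fun w' hw' => ?_
    exact avg_shift hB' (hK hw') (h := fun w => F (z + w + v) - F (z + w)) (fun a => hL (z + a))
  have h3 := norm_avg_le B' fun w => inc F B v (z + w)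
  have h4 : ‖inc F B' v z‖ ≤ ‖avg B' fun w => inc F B v (z + w)‖ +
      ‖(avg B' fun w => inc F B v (z + w)) - inc F B' v z‖ := by
    have := norm_sub_le (avg B' fun w => inc F B v (z + w))
      ((avg B' fun w => inc F B v (z + w)) - inc F B' v z)
    rwa [sub_sub_cancel] at this
  linarith

theorem FC_far {F : G → Y} {B : Finset G} (hB : B.Nonempty) {v : G} {L : ℝ} (hL : ∀ a, ‖F (a + v) - F a‖ ≤ L)
    {K' M B' : Finset G} {η : ℝ} (hM : Inv K' η M) (hB' : B'.Nonempty) (hK : B' ⊆ K') :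
    (avg M fun z => avg B' fun w => ‖inc F B v (z + w)‖) ≤ (avg M fun z => ‖inc F B v z‖) + 2 * η * L := by
  rw [avg_comm]
  refine avg_le hB' fun w hw => ?_
  have h3 := avg_shift hM (hK hw) (h := fun z => ‖inc F B v z‖) (H := L)
    (fun a => by rw [norm_norm]; exact norm_inc_le hB hL _)
  rw [Real.norm_eq_abs] at h3
  linarith [(abs_le.1 h3).2]

/-- The averaging theorem. -/
theorem exists_inc (hG : ∀ (K : Finset G) (η : ℝ), 0 < η → ∃ B : Finset G, Inv K η B) (F : G → Y)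
    {ι : Type*} [Fintype ι] (v : ι → G) {L c C₀ δ η : ℝ} (hL0 : 0 ≤ L)
    (hL : ∀ i a, ‖F (a + v i) - F a‖ ≤ L)
    (hlow : ∀ i (a : G) (s : ℕ), c * s - C₀ ≤ ‖F (a + s • v i) - F a‖)
    (hbd : ∀ w, ∃ D : ℝ, ∀ a, ‖F (a + w) - F a‖ ≤ D) (hδ : 0 < δ) (hη : 0 < η) (K : Finset G) :
    ∃ B : Finset G, Inv K η B ∧ ∃ z, ∀ i, c - δ ≤ ‖inc F B (v i) z‖ := by
  classical
  set m : ℝ := (Fintype.card ι : ℝ) with hm
  have hm0 : 0 ≤ m := Nat.cast_nonneg _
  obtain ⟨η₀, hη₀, hη₀η, hη₀δ⟩ : ∃ η₀ : ℝ, 0 < η₀ ∧ η₀ ≤ η ∧ 2 * η₀ * L * (1 + 2 * m) ≤ δ / 4 := by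
    have hp : 0 < 8 * (L * (1 + 2 * m)) + 1 := by positivity
    refine ⟨min η (δ / (8 * (L * (1 + 2 * m)) + 1)), lt_min hη (div_pos hδ hp), min_le_left _ _, ?_⟩
    have h1 : min η (δ / (8 * (L * (1 + 2 * m)) + 1)) ≤ δ / (8 * (L * (1 + 2 * m)) + 1) := min_le_right _ _
    have h2 : 2 * min η (δ / (8 * (L * (1 + 2 * m)) + 1)) * L * (1 + 2 * m) ≤
        2 * (δ / (8 * (L * (1 + 2 * m)) + 1)) * L * (1 + 2 * m) := by
      gcongr
    refine h2.trans ?_
    rw [show 2 * (δ / (8 * (L * (1 + 2 * m)) + 1)) * L * (1 + 2 * m) =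
      (2 * δ * (L * (1 + 2 * m))) / (8 * (L * (1 + 2 * m)) + 1) by ring, div_le_div_iff₀ hp (by norm_num)]
    nlinarith
  -- one step of the chain
  have hstep : ∀ B : {B : Finset G // B.Nonempty}, ∃ B' : {B : Finset G // B.Nonempty},
      Inv (K ∪ B.1) η₀ B'.1 ∧ ∀ i z, c - δ / 4 - 2 * η₀ * L ≤ avg B'.1 fun w => ‖inc F B.1 (v i) (z + w)‖ := by
    rintro ⟨B, hB⟩
    choose D hD using hbd
    set D₀ : ℝ := ∑ w ∈ B, |D w| with hD₀
    have hD' : ∀ w ∈ B, ∀ a, ‖F (a + w) - F a‖ ≤ D₀ := by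
      intro w hw a
      have h1 : |D w| ≤ D₀ := Finset.single_le_sum (f := fun w => |D w|) (fun _ _ => abs_nonneg _) hw
      exact (hD w a).trans ((le_abs_self _).trans h1)
    obtain ⟨s, hs⟩ := exists_nat_gt ((|C₀| + 2 * D₀) / (δ / 4))
    have hD00 : 0 ≤ D₀ := Finset.sum_nonneg fun _ _ => abs_nonneg _
    have hs1 : (0 : ℝ) < s := lt_of_le_of_lt (by positivity) hs
    have hs0 : 0 < s := by exact_mod_cast hs1
    obtain ⟨B', hB'⟩ := hG (K ∪ B ∪ (Finset.range s ×ˢ (Finset.univ : Finset ι)).image fun p => p.1 • v p.2) η₀ hη₀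
    refine ⟨⟨B', hB'.1⟩, hB'.mono (Finset.subset_union_left) le_rfl, fun i z => ?_⟩
    have h1 := FC_low hB (hlow i) hD' (hL i) hB' hs0 (fun j hj => ?_) z
    · have h2 : (C₀ + 2 * D₀) / s ≤ δ / 4 := by
        rw [div_le_iff₀ hs1]
        rw [div_lt_iff₀ (by positivity)] at hs
        have := le_abs_self C₀
        linarith
      linarith
    · apply Finset.mem_union_right
      exact Finset.mem_image.2 ⟨(j, i), Finset.mem_product.2 ⟨Finset.mem_range.2 hj, Finset.mem_univ _⟩, rfl⟩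
  choose nxt hnxt using hstep
  let B : ℕ → {B : Finset G // B.Nonempty} := fun n => Nat.rec ⟨{0}, Finset.singleton_nonempty 0⟩ (fun _ b => nxt b) n
  have hB : ∀ n, Inv (K ∪ (B n).1) η₀ (B (n + 1)).1 ∧ ∀ i z, c - δ / 4 - 2 * η₀ * L ≤
      avg (B (n + 1)).1 fun w => ‖inc F (B n).1 (v i) (z + w)‖ := fun n => hnxt (B n)
  obtain ⟨J, hJ⟩ := exists_nat_gt (m * L / (δ / 4))
  have hJ1 : (0 : ℝ) < J := lt_of_le_of_lt (by positivity) hJ
  have hJ0 : 0 < J := by exact_mod_cast hJ1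
  obtain ⟨M, hM⟩ := hG ((Finset.range (J + 1)).biUnion fun n => (B n).1) η₀ hη₀
  -- the gap functions
  let g : ℕ → ι → G → ℝ := fun j i z =>
    (avg (B (j + 1)).1 fun w => ‖inc F (B j).1 (v i) (z + w)‖) - ‖inc F (B (j + 1)).1 (v i) z‖
  let Q : ℕ → ℝ := fun j => ∑ i, avg M fun z => ‖inc F (B j).1 (v i) z‖
  have hg0 : ∀ j i z, -(2 * η₀ * L) ≤ g j i z := by
    intro j i z
    have := FC_dec (B j).2 (hL i) (hB j).1 Finset.subset_union_right z
    simp only [g]
    linarith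
  have hQ0 : Q 0 ≤ m * L := by
    have h1 : ∀ i ∈ (Finset.univ : Finset ι), (avg M fun z => ‖inc F (B 0).1 (v i) z‖) ≤ L := fun i _ =>
      avg_le hM.1 fun z _ => norm_inc_le (B 0).2 (hL i) z
    have h2 := Finset.sum_le_sum h1
    rw [Finset.sum_const, Finset.card_univ, nsmul_eq_mul] at h2
    exact h2
  have hQJ : 0 ≤ Q J := Finset.sum_nonneg fun i _ => le_avg hM.1 fun z _ => norm_nonneg _
  have hstepQ : ∀ j ∈ Finset.range J, (avg M fun z => ∑ i, g j i z) ≤ (Q j - Q (j + 1)) + 2 * η₀ * L * m := by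
    intro j hj
    rw [avg_sum]
    have h1 : ∀ i ∈ (Finset.univ : Finset ι), (avg M (g j i)) ≤ ((avg M fun z => ‖inc F (B j).1 (v i) z‖) -
        (avg M fun z => ‖inc F (B (j + 1)).1 (v i) z‖)) + 2 * η₀ * L := by
      intro i _
      have h2 := FC_far (B j).2 (hL i) hM (B (j + 1)).2 (Finset.subset_biUnion_of_mem (fun n => (B n).1)
        (Finset.mem_range.2 (Nat.succ_lt_succ (Finset.mem_range.1 hj))))
      simp only [g]
      rw [avg_sub]
      linarith
    have h2 := Finset.sum_le_sum h1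
    rw [Finset.sum_add_distrib, Finset.sum_sub_distrib, Finset.sum_const, Finset.card_univ, nsmul_eq_mul] at h2
    simp only [Q]
    linarith
  obtain ⟨z, -, hz⟩ := exists_le_avg hM.1 fun z => ∑ j ∈ Finset.range J, ∑ i, g j i z
  have hz' : ∑ j ∈ Finset.range J, ∑ i, g j i z ≤ ∑ j ∈ Finset.range J, (m * L / J + 2 * η₀ * L * m) := by
    refine hz.trans ?_
    rw [avg_sum]
    refine (Finset.sum_le_sum hstepQ).trans ?_
    rw [Finset.sum_add_distrib, Finset.sum_range_sub' Q, Finset.sum_const, Finset.sum_const, Finset.card_range,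
      nsmul_eq_mul, nsmul_eq_mul, mul_add, mul_div_cancel₀ _ hJ1.ne']
    linarith
  obtain ⟨j, hj, hjz⟩ := Finset.exists_le_of_sum_le (Finset.nonempty_range_iff.2 hJ0.ne') hz'
  refine ⟨(B (j + 1)).1, (hB j).1.mono Finset.subset_union_left hη₀η, z, fun i => ?_⟩
  have h1 : g j i z ≤ (m * L / J + 2 * η₀ * L * m) + 2 * η₀ * L * m := by
    have h2 : g j i z + ∑ i' ∈ Finset.univ.erase i, g j i' z = ∑ i', g j i' z :=
      Finset.add_sum_erase Finset.univ (fun i' => g j i' z) (Finset.mem_univ i)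
    have h3 : ∑ i' ∈ Finset.univ.erase i, -(2 * η₀ * L) ≤ ∑ i' ∈ Finset.univ.erase i, g j i' z :=
      Finset.sum_le_sum fun i' _ => hg0 j i' z
    rw [Finset.sum_const, nsmul_eq_mul] at h3
    have h4 : ((Finset.univ.erase i : Finset ι).card : ℝ) ≤ m := by
      rw [hm]
      exact_mod_cast (Finset.card_le_univ _)
    have h5 : 0 ≤ 2 * η₀ * L := by positivity
    nlinarith
  have h2 := (hB j).2 i z
  have h3 : m * L / J ≤ δ / 4 := by
    rw [div_le_iff₀ hJ1]
    rw [div_lt_iff₀ (by positivity)] at hJ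
    linarith
  simp only [g] at h1
  have h4 : 2 * η₀ * L * (1 + 2 * m) = 2 * η₀ * L + 2 * η₀ * L * m + 2 * η₀ * L * m := by ring
  linarith

end

end Pool.Agent.CPavR
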