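import Pool.Agent.Lib.MP_758516_anR.FC

/-!
# Approximately additive maps on boxes of `ℤ ^ d`
-/

set_option autoImplicit false
set_option linter.unusedSectionVars false

namespace Pool.Agent.CPavR

section
variable {V : Type*} [NormedAddCommGroup V] [NormedSpace ℝ V] {d : ℕ}

theorem FD_nat (Δ : (Fin d → ℤ) → V) (q : ℕ) (κ : ℝ) (hκ : 0 ≤ κ)
    (h : ∀ a a' : Fin d → ℤ, (∀ i, |a i| ≤ q) → (∀ i, |a' i| ≤ q) → ‖Δ (a + a') - Δ a - Δ a'‖ ≤ κ)
    (h0 : Δ 0 = 0) (i : Fin d) (n : ℕ) (hn : n ≤ q) :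
    ‖Δ (Pi.single i (n : ℤ)) - (n : ℝ) • Δ (Pi.single i 1)‖ ≤ n * κ := by
  induction n with
  | zero => simp [h0]
  | succ n ih =>
    have h1 := ih (by omega)
    have hb : ∀ k : ℤ, |k| ≤ q → ∀ j, |(Pi.single i k : Fin d → ℤ) j| ≤ q := by
      intro k hk j
      by_cases hj : j = i
      · rw [hj, Pi.single_eq_same]; exact hk
      · rw [Pi.single_eq_of_ne hj, abs_zero]; exact Int.natCast_nonneg q
    have h2 := h (Pi.single i (n : ℤ)) (Pi.single i 1) (hb _ (by rw [abs_of_nonneg (by positivity)]; omega))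
      (hb _ (by rw [abs_one]; omega))
    rw [← Pi.single_add] at h2
    have h3 : Δ (Pi.single i ((n + 1 : ℕ) : ℤ)) - ((n + 1 : ℕ) : ℝ) • Δ (Pi.single i 1) =
        (Δ (Pi.single i ((n : ℤ) + 1)) - Δ (Pi.single i (n : ℤ)) - Δ (Pi.single i 1)) +
          (Δ (Pi.single i (n : ℤ)) - (n : ℝ) • Δ (Pi.single i 1)) := by
      push_cast
      rw [add_smul, one_smul]
      abel
    rw [h3]
    refine (norm_add_le _ _).trans ?_
    push_cast
    linarith

theorem FD_int (Δ : (Fin d → ℤ) → V) (q : ℕ) (κ : ℝ) (hκ : 0 ≤ κ)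
    (h : ∀ a a' : Fin d → ℤ, (∀ i, |a i| ≤ q) → (∀ i, |a' i| ≤ q) → ‖Δ (a + a') - Δ a - Δ a'‖ ≤ κ)
    (h0 : Δ 0 = 0) (i : Fin d) (n : ℤ) (hn : |n| ≤ q) :
    ‖Δ (Pi.single i n) - (n : ℝ) • Δ (Pi.single i 1)‖ ≤ (q + 1) * κ := by
  have hb : ∀ k : ℤ, |k| ≤ q → ∀ j, |(Pi.single i k : Fin d → ℤ) j| ≤ q := by
    intro k hk j
    by_cases hj : j = i
    · rw [hj, Pi.single_eq_same]; exact hk
    · rw [Pi.single_eq_of_ne hj, abs_zero]; exact Int.natCast_nonneg q
  have hN : n.natAbs ≤ q := by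
    rw [Int.abs_eq_natAbs] at hn
    exact_mod_cast hn
  have h1 := FD_nat Δ q κ hκ h h0 i n.natAbs hN
  have hNq : (n.natAbs : ℝ) * κ ≤ q * κ := mul_le_mul_of_nonneg_right (by exact_mod_cast hN) hκ
  rcases le_total 0 n with hpos | hneg
  · have e1 : ((n.natAbs : ℕ) : ℤ) = n := Int.natAbs_of_nonneg hpos
    have e2 : ((n.natAbs : ℕ) : ℝ) = n := by
      rw [← Int.cast_natCast, e1]
    rw [e1, e2] at h1
    rw [e2] at hNq
    linarith
  · have e1 : ((n.natAbs : ℕ) : ℤ) = -n := by omega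
    have e2 : ((n.natAbs : ℕ) : ℝ) = -(n : ℝ) := by
      rw [← Int.cast_natCast, e1, Int.cast_neg]
    rw [e1, e2] at h1
    rw [e2] at hNq
    have h2 := h (Pi.single i n) (Pi.single i (-n)) (hb _ hn) (hb _ (by rwa [abs_neg]))
    rw [← Pi.single_add, add_neg_cancel, Pi.single_zero, h0] at h2
    have h3 : Δ (Pi.single i n) - (n : ℝ) • Δ (Pi.single i 1) =
        -(0 - Δ (Pi.single i n) - Δ (Pi.single i (-n))) - (Δ (Pi.single i (-n)) - (-(n : ℝ)) • Δ (Pi.single i 1)) := by
      rw [neg_smul]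
      abel
    rw [h3]
    refine (norm_sub_le _ _).trans ?_
    rw [norm_neg]
    linarith

theorem FD_sum (Δ : (Fin d → ℤ) → V) (q : ℕ) (κ : ℝ) (hκ : 0 ≤ κ)
    (h : ∀ a a' : Fin d → ℤ, (∀ i, |a i| ≤ q) → (∀ i, |a' i| ≤ q) → ‖Δ (a + a') - Δ a - Δ a'‖ ≤ κ)
    (h0 : Δ 0 = 0) (v : Fin d → ℤ) (hv : ∀ i, |v i| ≤ q) :
    ‖Δ v - ∑ i, (v i : ℝ) • Δ (Pi.single i 1)‖ ≤ d * ((q + 2) * κ) := by
  classical
  have key : ∀ I : Finset (Fin d), ‖Δ (fun i => if i ∈ I then v i else 0) - ∑ i ∈ I, (v i : ℝ) • Δ (Pi.single i 1)‖ ≤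
      I.card * ((q + 2) * κ) := by
    intro I
    induction I using Finset.induction_on with
    | empty =>
      have : (fun i : Fin d => if i ∈ (∅ : Finset (Fin d)) then v i else 0) = 0 := by
        funext i
        simp
      rw [this, h0]
      simp
    | insert j I hj ih =>
      have e1 : (fun i => if i ∈ insert j I then v i else 0) = (fun i => if i ∈ I then v i else 0) + Pi.single j (v j) := by
        funext i
        rw [Pi.add_apply]
        by_cases hij : i = j
        · subst hij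
          rw [Pi.single_eq_same, if_pos (Finset.mem_insert_self _ _), if_neg hj, zero_add]
        · rw [Pi.single_eq_of_ne hij, add_zero]
          by_cases hi : i ∈ I
          · rw [if_pos hi, if_pos (Finset.mem_insert_of_mem hi)]
          · rw [if_neg hi, if_neg (by rw [Finset.mem_insert]; tauto)]
      have hb1 : ∀ i, |(fun i => if i ∈ I then v i else 0) i| ≤ (q : ℤ) := by
        intro i
        show |if i ∈ I then v i else 0| ≤ (q : ℤ)
        split_ifs
        · exact hv i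
        · rw [abs_zero]; exact Int.natCast_nonneg q
      have hb2 : ∀ i, |(Pi.single j (v j) : Fin d → ℤ) i| ≤ (q : ℤ) := by
        intro i
        by_cases hij : i = j
        · rw [hij, Pi.single_eq_same]; exact hv j
        · rw [Pi.single_eq_of_ne hij, abs_zero]; exact Int.natCast_nonneg q
      have h1 := h _ _ hb1 hb2
      have h2 := FD_int Δ q κ hκ h h0 j (v j) (hv j)
      rw [e1, Finset.sum_insert hj, Finset.card_insert_of_notMem hj]
      set A := Δ ((fun i => if i ∈ I then v i else 0) + Pi.single j (v j))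
      set A1 := Δ fun i => if i ∈ I then v i else 0
      set A2 := Δ (Pi.single j (v j))
      set S := ∑ i ∈ I, (v i : ℝ) • Δ (Pi.single i 1)
      set W := (v j : ℝ) • Δ (Pi.single j 1)
      have e3 : A - (W + S) = (A - A1 - A2) + (A1 - S) + (A2 - W) := by abel
      rw [e3]
      refine (norm_add₃_le).trans ?_
      push_cast
      linarith
  have h1 := key Finset.univ
  rw [Finset.card_univ, Fintype.card_fin] at h1
  have h2 : (fun i : Fin d => if i ∈ (Finset.univ : Finset (Fin d)) then v i else 0) = v := by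
    funext i
    simp
  rwa [h2] at h1

/-- The averaged increments are approximately additive. -/
theorem inc_add {G : Type*} [AddCommGroup G] [DecidableEq G] {F : G → V} {K B : Finset G} {η D : ℝ} (hB : Inv K η B)
    {a a' : G} (ha : a ∈ K) (hD : ∀ x, ‖F (x + a') - F x‖ ≤ D) (z : G) :
    ‖inc F B (a + a') z - inc F B a z - inc F B a' z‖ ≤ 2 * η * D := by
  have h1 : inc F B (a + a') z - inc F B a z - inc F B a' z =
      (avg B fun w => F (z + (w + a) + a') - F (z + (w + a))) - avg B fun w => F (z + w + a') - F (z + w) := by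
    unfold inc
    rw [← avg_sub]
    congr 2
    funext w
    rw [show z + w + (a + a') = z + (w + a) + a' by abel, show z + w + a = z + (w + a) by abel]
    abel
  rw [h1]
  exact avg_shift hB ha (h := fun w => F (z + w + a') - F (z + w)) fun w => hD (z + w)

end

end Pool.Agent.CPavR
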