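import Pool.Agent.Lib.MP_758516_anR.FD

/-!
# Ribe's theorem for maps that are bi-Lipschitz at large distances
-/

set_option autoImplicit false

namespace Pool.Agent.CPavR

section
variable {E : Type*} [NormedAddCommGroup E] [NormedSpace ℝ E] [FiniteDimensional ℝ E]

/-- the lattice spanned by `ρ • b i` -/
noncomputable def latt {d : ℕ} (b : Fin d → E) (ρ : ℝ) (a : Fin d → ℤ) : E := ∑ i, (ρ * (a i : ℝ)) • b i

theorem latt_add {d : ℕ} (b : Fin d → E) (ρ : ℝ) (a a' : Fin d → ℤ) :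
    latt b ρ (a + a') = latt b ρ a + latt b ρ a' := by
  unfold latt
  rw [← Finset.sum_add_distrib]
  refine Finset.sum_congr rfl fun i _ => ?_
  rw [Pi.add_apply, Int.cast_add, mul_add, add_smul]

theorem latt_nsmul {d : ℕ} (b : Fin d → E) (ρ : ℝ) (n : ℕ) (a : Fin d → ℤ) :
    latt b ρ (n • a) = (n : ℝ) • latt b ρ a := by
  unfold latt
  rw [Finset.smul_sum]
  refine Finset.sum_congr rfl fun i _ => ?_
  rw [smul_smul, Pi.smul_apply, nsmul_eq_mul, Int.cast_mul, Int.cast_natCast]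
  congr 1
  ring

/-- Lattice points near the unit sphere. -/
theorem exists_latt {d : ℕ} (b : Module.Basis (Fin d) ℝ E) {δ : ℝ} (hδ : 0 < δ) :
    ∃ ρ : ℝ, 0 < ρ ∧ ∃ q : ℕ, 1 ≤ q ∧ ∀ x : E, ‖x‖ = 1 → ∃ a : Fin d → ℤ, (∀ i, |a i| ≤ q) ∧ ‖x - latt b ρ a‖ ≤ δ := by
  set S : ℝ := ∑ i, ‖b i‖ with hS
  have hS0 : 0 ≤ S := Finset.sum_nonneg fun _ _ => norm_nonneg _
  set ρ : ℝ := δ / (S + 1) with hρ
  have hρ0 : 0 < ρ := div_pos hδ (by positivity)
  obtain ⟨C, hC⟩ : ∃ C : ℝ, ∀ (x : E) (i : Fin d), ‖x‖ = 1 → |b.repr x i| ≤ C := by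
    let φ : Fin d → (E →L[ℝ] ℝ) := fun i => LinearMap.toContinuousLinearMap (b.coord i)
    refine ⟨∑ i, ‖φ i‖, fun x i hx => ?_⟩
    have h1 : |b.repr x i| = ‖φ i x‖ := rfl
    have h2 : ‖φ i x‖ ≤ ‖φ i‖ := by
      have := (φ i).le_opNorm x
      rwa [hx, mul_one] at this
    rw [h1]
    exact h2.trans (Finset.single_le_sum (f := fun i => ‖φ i‖) (fun _ _ => norm_nonneg _) (Finset.mem_univ i))
  obtain ⟨q, hq⟩ := exists_nat_ge (C / ρ + 2)
  refine ⟨ρ, hρ0, q + 1, by omega, fun x hx => ⟨fun i => ⌊b.repr x i / ρ⌋, fun i => ?_, ?_⟩⟩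
  · have h1 := hC x i hx
    have h2 : |b.repr x i / ρ| ≤ C / ρ := by
      rw [abs_div, abs_of_pos hρ0]
      exact div_le_div_of_nonneg_right h1 hρ0.le
    have h3 := abs_le.1 h2
    have h4 := Int.floor_le (b.repr x i / ρ)
    have h5 := Int.lt_floor_add_one (b.repr x i / ρ)
    have h6 : (|⌊b.repr x i / ρ⌋| : ℤ) ≤ ((q + 1 : ℕ) : ℤ) := by
      rw [abs_le]
      constructor
      · have : (-((q + 1 : ℕ) : ℤ) : ℝ) ≤ ((⌊b.repr x i / ρ⌋ : ℤ) : ℝ) := by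
          push_cast
          linarith [h3.1]
        exact_mod_cast this
      · have : ((⌊b.repr x i / ρ⌋ : ℤ) : ℝ) ≤ (((q + 1 : ℕ) : ℤ) : ℝ) := by
          push_cast
          linarith [h3.2]
        exact_mod_cast this
    exact h6
  · have h1 : x - latt b ρ (fun i => ⌊b.repr x i / ρ⌋) = ∑ i, (ρ * Int.fract (b.repr x i / ρ)) • b i := by
      conv_lhs => rw [← b.sum_repr x]
      unfold latt
      rw [← Finset.sum_sub_distrib]
      refine Finset.sum_congr rfl fun i _ => ?_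
      rw [← sub_smul, b.sum_repr]
      congr 1
      unfold Int.fract
      field_simp
    rw [h1]
    refine (norm_sum_le _ _).trans ?_
    have h2 : ∀ i ∈ (Finset.univ : Finset (Fin d)), ‖(ρ * Int.fract (b.repr x i / ρ)) • b i‖ ≤ ρ * ‖b i‖ := by
      intro i _
      rw [norm_smul, Real.norm_of_nonneg (mul_nonneg hρ0.le (Int.fract_nonneg _))]
      refine mul_le_mul_of_nonneg_right ?_ (norm_nonneg _)
      have := (Int.fract_lt_one (b.repr x i / ρ)).le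
      nlinarith
    refine (Finset.sum_le_sum h2).trans ?_
    rw [← Finset.mul_sum, ← hS, hρ, div_mul_eq_mul_div, div_le_iff₀ (by positivity)]
    nlinarith

/-- **Ribe's theorem** (for one finite-dimensional space). -/
theorem ribe {Y : Type*} [NormedAddCommGroup Y] [NormedSpace ℝ Y] {L : ℝ} (hL : 1 ≤ L)
    (h : ∀ ε : ℝ, 0 < ε → ∃ f : E → Y, ∀ x x' : E, ‖f x - f x'‖ ≤ L * (‖x - x'‖ + ε) ∧
      ‖x - x'‖ ≤ L * (‖f x - f x'‖ + ε)) :
    ∃ T : E →L[ℝ] Y, ∀ x, ‖T x‖ ≤ 2 * L * ‖x‖ ∧ ‖x‖ ≤ 2 * L * ‖T x‖ := by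
  classical
  have hL0 : 0 < L := lt_of_lt_of_le one_pos hL
  set d := Module.finrank ℝ E with hd
  let b : Module.Basis (Fin d) ℝ E := Module.finBasis ℝ E
  set δ : ℝ := 1 / (16 * L ^ 2) with hδd
  have hδ : 0 < δ := by positivity
  have hδL : L ^ 2 * δ = 1 / 16 := by
    rw [hδd]
    field_simp
  have hδL1 : L * δ ≤ 1 / 16 := by
    have : L * δ ≤ L ^ 2 * δ := by
      apply mul_le_mul_of_nonneg_right _ hδ.le
      nlinarith
    linarith
  have hδ1 : δ ≤ 1 / 16 := by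
    have : δ ≤ L * δ := by nlinarith
    linarith
  obtain ⟨ρ, hρ, q, hq, hnet⟩ := exists_latt b hδ
  obtain ⟨f, hf⟩ := h δ hδ
  -- the box and the directions
  let P : Finset (Fin d → ℤ) := Fintype.piFinset fun _ => Finset.Icc (-(q : ℤ)) q
  have hP : ∀ a : Fin d → ℤ, (∀ i, |a i| ≤ q) → a ∈ P := by
    intro a ha
    rw [Fintype.mem_piFinset]
    intro i
    rw [Finset.mem_Icc]
    exact abs_le.1 (ha i)
  let S : Finset (Fin d → ℤ) := P.filter fun a => 1 - δ ≤ ‖latt b ρ a‖ ∧ ‖latt b ρ a‖ ≤ 1 + δ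
  let F : (Fin d → ℤ) → Y := fun a => f (latt b ρ a)
  have hFup : ∀ a w : Fin d → ℤ, ‖F (a + w) - F a‖ ≤ L * (‖latt b ρ w‖ + δ) := by
    intro a w
    have := (hf (latt b ρ (a + w)) (latt b ρ a)).1
    rwa [latt_add, add_sub_cancel_left, ← latt_add] at this
  have hFlow : ∀ a w : Fin d → ℤ, ‖latt b ρ w‖ ≤ L * (‖F (a + w) - F a‖ + δ) := by
    intro a w
    have := (hf (latt b ρ (a + w)) (latt b ρ a)).2
    rwa [latt_add, add_sub_cancel_left, ← latt_add] at this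
  -- a bound for the increments on the box
  obtain ⟨D, hD0, hD⟩ : ∃ D : ℝ, 0 ≤ D ∧ ∀ w ∈ P, ∀ a, ‖F (a + w) - F a‖ ≤ D := by
    refine ⟨∑ w ∈ P, L * (‖latt b ρ w‖ + δ), Finset.sum_nonneg fun _ _ => by positivity, fun w hw a => ?_⟩
    exact (hFup a w).trans (Finset.single_le_sum (f := fun w => L * (‖latt b ρ w‖ + δ))
      (fun _ _ => by positivity) hw)
  obtain ⟨η, hη, hη1⟩ : ∃ η : ℝ, 0 < η ∧ d * ((q + 2) * (2 * η * D)) ≤ δ := by
    have hp : (0 : ℝ) < 2 * (d * ((q + 2) * D)) + 1 := by positivity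
    refine ⟨δ / (2 * (d * ((q + 2) * D)) + 1), div_pos hδ hp, ?_⟩
    rw [show (d : ℝ) * ((q + 2) * (2 * (δ / (2 * (d * ((q + 2) * D)) + 1)) * D)) =
      (2 * (d * ((q + 2) * D)) * δ) / (2 * (d * ((q + 2) * D)) + 1) by ring, div_le_iff₀ hp]
    nlinarith
  obtain ⟨B, hB, z, hz⟩ := exists_inc (G := Fin d → ℤ) (fun K η hη => exists_inv K hη) F (ι := {a // a ∈ S})
    (fun a => a.1) (L := L * (1 + 2 * δ)) (c := (1 - δ) / L) (C₀ := δ) (δ := δ) (η := η) (by positivity)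
    (by
      rintro ⟨v, hv⟩ a
      refine (hFup a v).trans ?_
      have := (Finset.mem_filter.1 hv).2.2
      refine mul_le_mul_of_nonneg_left ?_ hL0.le
      linarith)
    (by
      rintro ⟨v, hv⟩ a s
      have h1 := hFlow a (s • v)
      rw [latt_nsmul, norm_smul, Real.norm_of_nonneg (Nat.cast_nonneg s)] at h1
      have h2 := (Finset.mem_filter.1 hv).2.1
      have h3 : (s : ℝ) * (1 - δ) ≤ L * (‖F (a + s • v) - F a‖ + δ) :=
        (mul_le_mul_of_nonneg_left h2 (Nat.cast_nonneg s)).trans h1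
      rw [div_mul_eq_mul_div, sub_le_iff_le_add, div_le_iff₀ hL0]
      linarith)
    (fun w => ⟨_, fun a => hFup a w⟩) hδ hη P
  -- the linear map
  let Δ : (Fin d → ℤ) → Y := fun a => inc F B a z
  have hΔ0 : Δ 0 = 0 := by
    show avg B (fun w => F (z + w + 0) - F (z + w)) = 0
    have : (fun w => F (z + w + 0) - F (z + w)) = fun _ => (0 : Y) := by
      funext w
      rw [add_zero, sub_self]
    rw [this]
    exact avg_const hB.1 0
  have hΔ : ∀ v : Fin d → ℤ, (∀ i, |v i| ≤ q) → ‖Δ v - ∑ i, (v i : ℝ) • Δ (Pi.single i 1)‖ ≤ δ := by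
    intro v hv
    refine (FD_sum Δ q (2 * η * D) (by positivity) (fun a a' ha ha' => ?_) hΔ0 v hv).trans hη1
    exact inc_add hB (hP a ha) (hD a' (hP a' ha')) z
  let T₀ : E →ₗ[ℝ] Y := b.constr ℝ fun i => ρ⁻¹ • Δ (Pi.single i 1)
  let T : E →L[ℝ] Y := LinearMap.toContinuousLinearMap T₀
  have hTl : ∀ v : Fin d → ℤ, T (latt b ρ v) = ∑ i, (v i : ℝ) • Δ (Pi.single i 1) := by
    intro v
    show T₀ (latt b ρ v) = _
    unfold latt
    rw [map_sum]
    refine Finset.sum_congr rfl fun i _ => ?_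
    rw [map_smul, show T₀ (b i) = ρ⁻¹ • Δ (Pi.single i 1) from b.constr_basis ℝ _ i, smul_smul]
    congr 1
    field_simp
  have hnet' : ∀ x : E, ‖x‖ = 1 → ∃ v ∈ S, (∀ i, |v i| ≤ q) ∧ ‖x - latt b ρ v‖ ≤ δ := by
    intro x hx
    obtain ⟨a, ha, hxa⟩ := hnet x hx
    refine ⟨a, Finset.mem_filter.2 ⟨hP a ha, ?_, ?_⟩, ha, hxa⟩
    · have := norm_sub_norm_le x (latt b ρ a)
      linarith
    · have := norm_sub_norm_le (latt b ρ a) x
      rw [norm_sub_rev] at this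
      linarith
  have hTup : ∀ v ∈ S, (∀ i, |v i| ≤ q) → ‖T (latt b ρ v)‖ ≤ L * (1 + 3 * δ) := by
    intro v hv hvq
    have h1 := hΔ v hvq
    have h2 : ‖Δ v‖ ≤ L * (1 + 2 * δ) := norm_inc_le hB.1 (fun a => by
      refine (hFup a v).trans ?_
      have := (Finset.mem_filter.1 hv).2.2
      refine mul_le_mul_of_nonneg_left ?_ hL0.le
      linarith) z
    rw [hTl]
    have h3 := norm_sub_norm_le (∑ i, (v i : ℝ) • Δ (Pi.single i 1)) (Δ v)
    rw [norm_sub_rev] at h3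
    nlinarith
  have hTlow : ∀ v ∈ S, (∀ i, |v i| ≤ q) → (1 - δ) / L - 2 * δ ≤ ‖T (latt b ρ v)‖ := by
    intro v hv hvq
    have h1 := hΔ v hvq
    have h2 : (1 - δ) / L - δ ≤ ‖Δ v‖ := hz ⟨v, hv⟩
    rw [hTl]
    have h3 := norm_sub_norm_le (Δ v) (∑ i, (v i : ℝ) • Δ (Pi.single i 1))
    linarith
  have hTn : ‖T‖ ≤ 2 * L := by
    have h1 : ‖T‖ ≤ L * (1 + 3 * δ) + δ * ‖T‖ := by
      refine ContinuousLinearMap.opNorm_le_of_unit_norm (by positivity) fun x hx => ?_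
      obtain ⟨v, hv, hvq, hxv⟩ := hnet' x hx
      have h2 : T x = T (latt b ρ v) + T (x - latt b ρ v) := by rw [← map_add]; congr 1; abel
      rw [h2]
      refine (norm_add_le _ _).trans (add_le_add (hTup v hv hvq) ?_)
      refine (T.le_opNorm _).trans ?_
      rw [mul_comm]
      exact mul_le_mul_of_nonneg_right hxv (norm_nonneg _)
    have h2 : 0 ≤ ‖T‖ := norm_nonneg _
    nlinarith
  have hunit : ∀ x : E, ‖x‖ = 1 → 1 ≤ 2 * L * ‖T x‖ := by
    intro x hx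
    obtain ⟨v, hv, hvq, hxv⟩ := hnet' x hx
    have h2 : T (latt b ρ v) = T x - T (x - latt b ρ v) := by rw [← map_sub]; congr 1; abel
    have h3 := hTlow v hv hvq
    rw [h2] at h3
    have h4 := norm_sub_le (T x) (T (x - latt b ρ v))
    have h5 : ‖T (x - latt b ρ v)‖ ≤ 2 * L * δ :=
      (T.le_opNorm _).trans (mul_le_mul hTn hxv (norm_nonneg _) (by positivity))
    have h6 : (1 - δ) / L - 2 * δ - 2 * L * δ ≤ ‖T x‖ := by linarith
    have h7 : (1 - δ) - 2 * (L * δ) - 2 * (L ^ 2 * δ) ≤ L * ‖T x‖ := by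
      have := mul_le_mul_of_nonneg_left h6 hL0.le
      have e : L * ((1 - δ) / L - 2 * δ - 2 * L * δ) = (1 - δ) - 2 * (L * δ) - 2 * (L ^ 2 * δ) := by
        field_simp
      rwa [e] at this
    nlinarith
  refine ⟨T, fun x => ⟨(T.le_opNorm x).trans (mul_le_mul_of_nonneg_right hTn (norm_nonneg _)), ?_⟩⟩
  by_cases hx : x = 0
  · subst hx
    simp
  · have hx' : ‖x‖ ≠ 0 := norm_ne_zero_iff.2 hx
    have h1 := hunit (‖x‖⁻¹ • x) (by rw [norm_smul, norm_inv, norm_norm, inv_mul_cancel₀ hx'])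
    rw [map_smul, norm_smul, norm_inv, norm_norm] at h1
    have h2 := mul_le_mul_of_nonneg_left h1 (norm_nonneg x)
    rw [mul_one, show ‖x‖ * (2 * L * (‖x‖⁻¹ * ‖T x‖)) = (‖x‖ * ‖x‖⁻¹) * (2 * L * ‖T x‖) by ring,
      mul_inv_cancel₀ hx', one_mul] at h2
    exact h2

end

end Pool.Agent.CPavR
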