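import Pool.Agent.Lib.MP_758516_anR.FE
import Pool.Agent.Lib.MP_758516_anR.BC
import Pool.Agent.Lib.MP_758516_an.CoarA
import Pool.Agent.Lib.MP_758516_an.PavA

/-!
# Common pavings of spaces which are represented in their subspaces of finite codimension
-/

set_option autoImplicit false
set_option linter.unusedSectionVars false

namespace Pool.Agent.CPavR

open Pool.Agent.CPav

section
variable {X Y : Type*} [NormedAddCommGroup X] [NormedSpace ℝ X] [NormedAddCommGroup Y] [NormedSpace ℝ Y]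

theorem AsEmb.mono {V : Type*} [NormedAddCommGroup V] [NormedSpace ℝ V] {a b : ℝ} (h : AsEmb V X a) (hab : a ≤ b) :
    AsEmb V X b := by
  intro Φ
  obtain ⟨T, hT⟩ := h Φ
  exact ⟨T, fun v => ⟨(hT v).1, (hT v).2.1, (hT v).2.2.trans (mul_le_mul_of_nonneg_right hab (norm_nonneg _))⟩⟩

/-- Ribe's theorem. -/
theorem cfr_of_coarse {L : ℝ} (hL : 1 ≤ L)
    (h : ∀ ε : ℝ, 0 < ε → ∃ f : X → Y, ∀ x x' : X, ‖f x - f x'‖ ≤ L * (‖x - x'‖ + ε) ∧
      ‖x - x'‖ ≤ L * (‖f x - f x'‖ + ε)) : CFR X Y (2 * L) := by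
  intro G hG
  obtain ⟨T, hT⟩ := ribe (E := G) (Y := Y) hL (fun ε hε => by
    obtain ⟨f, hf⟩ := h ε hε
    exact ⟨fun x => f x, fun x x' => hf x x'⟩)
  exact ⟨(T : G →ₗ[ℝ] Y), hT⟩

/-- The joint extension property follows from mutual crude finite representability if `X` is crudely finitely
representable in its closed subspaces of finite codimension. -/
theorem jointExt_of_cfr {lam K : ℝ} (hlam : 0 ≤ lam) (hK : 1 ≤ K)
    (hX : ∀ E : Submodule ℝ X, FiniteDimensional ℝ E → AsEmb E X lam) (hXY : CFR X Y K) (hYX : CFR Y X K) :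
    JointExt X Y ((2 * (8 * K ^ 2 * lam + 1) + 3) * (2 * (8 * K ^ 2 * lam + 1) + 3)) := by
  intro E F hE hF
  obtain ⟨R, hR⟩ := hYX F hF
  have h1 : AsEmb F X (K ^ 2 * lam) := AsEmb.of_embed hlam hK hX R hR
  have h2 : AsEmb E Y (8 * K ^ 2 * lam + 1) := (hX E hE).transfer hlam hK hXY
  have h3 : 0 ≤ K ^ 2 * lam := by positivity
  exact joint E F (by positivity) (h1.mono (by linarith)) h2

/-- The common kernel of finitely many functionals is a closed subspace of finite codimension. -/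
theorem asEmb_of_codim {V : Type*} [NormedAddCommGroup V] [NormedSpace ℝ V] {lam : ℝ}
    (h : ∀ X₀ : Submodule ℝ X, IsClosed (X₀ : Set X) → FiniteDimensional ℝ (X ⧸ X₀) →
      ∃ T : V →ₗ[ℝ] X, ∀ v, T v ∈ X₀ ∧ ‖v‖ ≤ ‖T v‖ ∧ ‖T v‖ ≤ lam * ‖v‖) : AsEmb V X lam := by
  intro Φ
  let ev : X →L[ℝ] ({φ // φ ∈ Φ} → ℝ) := ContinuousLinearMap.pi fun φ => φ.1
  have hcl : IsClosed ((LinearMap.ker (ev : X →ₗ[ℝ] ({φ // φ ∈ Φ} → ℝ)) : Submodule ℝ X) : Set X) := by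
    have : ((LinearMap.ker (ev : X →ₗ[ℝ] ({φ // φ ∈ Φ} → ℝ)) : Submodule ℝ X) : Set X) = ev ⁻¹' {0} := by
      ext x
      simp
    rw [this]
    exact isClosed_singleton.preimage ev.continuous
  have hfd : FiniteDimensional ℝ (X ⧸ LinearMap.ker (ev : X →ₗ[ℝ] ({φ // φ ∈ Φ} → ℝ))) :=
    Module.Finite.equiv (LinearMap.quotKerEquivRange (ev : X →ₗ[ℝ] ({φ // φ ∈ Φ} → ℝ))).symm
  obtain ⟨T, hT⟩ := h _ hcl hfd
  refine ⟨T, fun v => ⟨fun φ hφ => ?_, (hT v).2⟩⟩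
  have h1 := (hT v).1
  rw [LinearMap.mem_ker] at h1
  exact congrFun h1 ⟨φ, hφ⟩

/-- Common pavings. -/
theorem paving_of_asr [TopologicalSpace.SeparableSpace X] [TopologicalSpace.SeparableSpace Y]
    (hX : ∃ lam : ℝ, ∀ E : Submodule ℝ X, FiniteDimensional ℝ E → AsEmb E X lam) (hΦ : Nonempty (UniformEquiv X Y)) :
    ∃ (E : ℕ → Submodule ℝ X) (F : ℕ → Submodule ℝ Y),
      Monotone E ∧ Monotone F ∧
      (∀ n, FiniteDimensional ℝ ↥(E n)) ∧ (∀ n, FiniteDimensional ℝ ↥(F n)) ∧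
      Dense (⋃ n, (E n : Set X)) ∧ Dense (⋃ n, (F n : Set Y)) ∧
      ∃ (T : ∀ n, ↥(E n) ≃L[ℝ] ↥(F n)) (C : ℝ), ∀ n,
        ‖((T n : ↥(E n) →L[ℝ] ↥(F n)))‖ *
          ‖(((T n).symm : ↥(F n) →L[ℝ] ↥(E n)))‖ ≤ C := by
  obtain ⟨Φ⟩ := hΦ
  obtain ⟨lam, hlam⟩ := hX
  obtain ⟨L, hL, hc⟩ := coarseEq_of_uniform Φ
  have hL1 : L ≤ max L 1 := le_max_left _ _
  have h1 : CFR X Y (2 * max L 1) := cfr_of_coarse (le_max_right _ _) fun ε hε => by
    obtain ⟨f, -, hf⟩ := hc ε hε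
    refine ⟨f, fun x x' => ⟨(hf x x').1.trans ?_, (hf x x').2.trans ?_⟩⟩ <;>
      exact mul_le_mul_of_nonneg_right hL1 (by positivity)
  have h2 : CFR Y X (2 * max L 1) := cfr_of_coarse (le_max_right _ _) fun ε hε => by
    obtain ⟨f, -, hf⟩ := hc ε hε
    refine ⟨f.symm, fun y y' => ?_⟩
    have h3 := hf (f.symm y) (f.symm y')
    rw [Equiv.apply_symm_apply, Equiv.apply_symm_apply] at h3
    exact ⟨h3.2.trans (mul_le_mul_of_nonneg_right hL1 (by positivity)),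
      h3.1.trans (mul_le_mul_of_nonneg_right hL1 (by positivity))⟩
  refine paving_of_jointExt _ (jointExt_of_cfr (lam := max lam 0) (le_max_right _ _) ?_
    (fun E hE => (hlam E hE).mono (le_max_left _ _)) h1 h2)
  have := le_max_right L 1
  linarith

end

end Pool.Agent.CPavR
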